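import Mathlib

set_option autoImplicit false

open Matrix Finset

namespace Pool.Agent.Results.MP_f34218_co.MinimumTrades

/-- A complex Hadamard matrix of order `n`: entries of modulus one and `H Hᴴ = n I`. -/
def IsComplexHadamard {n : ℕ} (H : Matrix (Fin n) (Fin n) ℂ) : Prop :=
  (∀ i j, ‖H i j‖ = 1) ∧ H * H.conjTranspose = (n : ℂ) • (1 : Matrix (Fin n) (Fin n) ℂ)

/-- A set `T` of positions is a trade in `H` if some complex Hadamard matrix `H' ≠ H` differs from
`H` at every position of `T` and agrees with `H` at every position outside `T`. -/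
def IsTrade {n : ℕ} (H : Matrix (Fin n) (Fin n) ℂ) (T : Finset (Fin n × Fin n)) : Prop :=
  ∃ H' : Matrix (Fin n) (Fin n) ℂ, IsComplexHadamard H' ∧ H' ≠ H ∧
    (∀ i j, (i, j) ∈ T → H' i j ≠ H i j) ∧ (∀ i j, (i, j) ∉ T → H' i j = H i j)

/-- Uncertainty principle: a nonzero combination of the rows indexed by `A` has at least
`n / |A|` nonzero entries. -/
lemma uncertainty {n : ℕ} {H : Matrix (Fin n) (Fin n) ℂ} (hH : IsComplexHadamard H)
    (x : Fin n → ℂ) (A S : Finset (Fin n)) (hx : ∀ k, k ∉ A → x k = 0)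
    (hS : ∀ j, j ∉ S → (x ᵥ* H) j = 0) (hne : x ᵥ* H ≠ 0) : n ≤ S.card * A.card := by
  classical
  set y := x ᵥ* H with hy
  set E : ℝ := ∑ k, ‖x k‖ ^ 2 with hE
  have hpars : ∑ j, ‖y j‖ ^ 2 = n * E := by
    have h1 : y ⬝ᵥ star y = (n : ℂ) * (x ⬝ᵥ star x) := by
      rw [hy, star_vecMul, dotProduct_mulVec, vecMul_vecMul, hH.2, vecMul_smul, vecMul_one,
        smul_dotProduct, smul_eq_mul]
    have h2 : ∀ v : Fin n → ℂ, v ⬝ᵥ star v = ((∑ k, ‖v k‖ ^ 2 : ℝ) : ℂ) := by
      intro v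
      simp only [dotProduct, Pi.star_apply, Complex.ofReal_sum]
      refine Finset.sum_congr rfl fun k _ => ?_
      rw [Complex.star_def, Complex.mul_conj, Complex.normSq_eq_norm_sq]
    rw [h2, h2] at h1
    exact_mod_cast h1
  have hpt : ∀ j, ‖y j‖ ^ 2 ≤ A.card * E := by
    intro j
    have h1 : ‖y j‖ ≤ ∑ k ∈ A, ‖x k‖ := by
      have : y j = ∑ k ∈ A, x k * H k j := by
        rw [hy]
        simp only [vecMul, dotProduct]
        symm
        refine Finset.sum_subset (Finset.subset_univ _) fun k _ hk => ?_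
        rw [hx k hk, zero_mul]
      rw [this]
      refine (norm_sum_le _ _).trans (le_of_eq ?_)
      refine Finset.sum_congr rfl fun k _ => ?_
      rw [norm_mul, hH.1, mul_one]
    have h2 : (∑ k ∈ A, ‖x k‖) ^ 2 ≤ A.card * ∑ k ∈ A, ‖x k‖ ^ 2 := sq_sum_le_card_mul_sum_sq
    have h3 : ∑ k ∈ A, ‖x k‖ ^ 2 ≤ E :=
      Finset.sum_le_sum_of_subset_of_nonneg (Finset.subset_univ _) fun _ _ _ => by positivity
    calc ‖y j‖ ^ 2 ≤ (∑ k ∈ A, ‖x k‖) ^ 2 := by gcongr
      _ ≤ A.card * ∑ k ∈ A, ‖x k‖ ^ 2 := h2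
      _ ≤ A.card * E := by gcongr
  have hsum : ∑ j, ‖y j‖ ^ 2 ≤ S.card * (A.card * E) := by
    have : ∑ j, ‖y j‖ ^ 2 = ∑ j ∈ S, ‖y j‖ ^ 2 := by
      symm
      refine Finset.sum_subset (Finset.subset_univ _) fun j _ hj => ?_
      rw [hS j hj]; simp
    rw [this]
    calc ∑ j ∈ S, ‖y j‖ ^ 2 ≤ ∑ _j ∈ S, A.card * E := Finset.sum_le_sum fun j _ => hpt j
      _ = S.card * (A.card * E) := by rw [Finset.sum_const, nsmul_eq_mul]
  have hEpos : 0 < E := by
    obtain ⟨j, hj⟩ := Function.ne_iff.mp hne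
    have h1 : 0 < ‖y j‖ ^ 2 := pow_pos (norm_pos_iff.mpr hj) 2
    have h2 := lt_of_lt_of_le h1 (hpt j)
    have h3 : 0 ≤ E := Finset.sum_nonneg fun _ _ => by positivity
    rcases h3.lt_or_eq with h | h
    · exact h
    · rw [← h] at h2; simp at h2
  rw [hpars, ← mul_assoc] at hsum
  have := le_of_mul_le_mul_right hsum hEpos
  exact_mod_cast this

lemma variance {ι : Type} (A : Finset ι) (z : ι → ℂ) :
    ∑ k ∈ A, ‖(A.card : ℂ) * z k - ∑ l ∈ A, z l‖ ^ 2 =
      A.card * (A.card * ∑ k ∈ A, ‖z k‖ ^ 2 - ‖∑ l ∈ A, z l‖ ^ 2) := by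
  obtain ⟨y, hy⟩ : ∃ y, y = ∑ l ∈ A, z l := ⟨_, rfl⟩
  rw [← hy]
  have h : ∀ k ∈ A, ‖(A.card : ℂ) * z k - y‖ ^ 2 = (A.card : ℝ) ^ 2 * ‖z k‖ ^ 2 -
      2 * A.card * (z k * (starRingEnd ℂ) y).re + ‖y‖ ^ 2 := by
    intro k _
    simp only [Complex.sq_norm, Complex.normSq_apply]
    simp
    ring
  rw [Finset.sum_congr rfl h, Finset.sum_add_distrib, Finset.sum_sub_distrib, ← Finset.mul_sum,
    ← Finset.mul_sum, ← Complex.re_sum, ← Finset.sum_mul, ← hy, Complex.mul_conj,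
    Complex.ofReal_re, Complex.normSq_eq_norm_sq, Finset.sum_const, nsmul_eq_mul]
  ring

/-- The equality case of the uncertainty principle. -/
lemma uncertainty_eq {n : ℕ} {H : Matrix (Fin n) (Fin n) ℂ} (hH : IsComplexHadamard H)
    (x : Fin n → ℂ) (A S : Finset (Fin n)) (hx : ∀ k, k ∉ A → x k = 0)
    (hS : ∀ j, j ∉ S → (x ᵥ* H) j = 0) (hc : S.card * A.card = n) :
    ∀ j ∈ S, ∀ k ∈ A, (A.card : ℂ) * (x k * H k j) = (x ᵥ* H) j := by
  have hpars : ∑ j, ‖(x ᵥ* H) j‖ ^ 2 = n * ∑ k, ‖x k‖ ^ 2 := by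
    have h1 : (x ᵥ* H) ⬝ᵥ star (x ᵥ* H) = (n : ℂ) * (x ⬝ᵥ star x) := by
      rw [star_vecMul, dotProduct_mulVec, vecMul_vecMul, hH.2, vecMul_smul, vecMul_one,
        smul_dotProduct, smul_eq_mul]
    have h2 : ∀ v : Fin n → ℂ, v ⬝ᵥ star v = ((∑ k, ‖v k‖ ^ 2 : ℝ) : ℂ) := by
      intro v
      simp only [dotProduct, Pi.star_apply, Complex.ofReal_sum]
      refine Finset.sum_congr rfl fun k _ => ?_
      rw [Complex.star_def, Complex.mul_conj, Complex.normSq_eq_norm_sq]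
    rw [h2, h2] at h1
    exact_mod_cast h1
  have hy : ∀ j, ∑ k ∈ A, x k * H k j = (x ᵥ* H) j := fun j =>
    Finset.sum_subset (Finset.subset_univ _) fun k _ hk => by rw [hx k hk, zero_mul]
  have hE : ∀ j, ∑ k ∈ A, ‖x k * H k j‖ ^ 2 = ∑ k, ‖x k‖ ^ 2 := fun j => by
    simp only [norm_mul, hH.1, mul_one]
    exact Finset.sum_subset (Finset.subset_univ _) fun k _ hk => by simp [hx k hk]
  have hs : ∑ j ∈ S, ‖(x ᵥ* H) j‖ ^ 2 = ∑ j, ‖(x ᵥ* H) j‖ ^ 2 :=
    Finset.sum_subset (Finset.subset_univ _) fun j _ hj => by simp [hS j hj]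
  have hv : ∀ j ∈ S, ∑ k ∈ A, ‖(A.card : ℂ) * (x k * H k j) - (x ᵥ* H) j‖ ^ 2 =
      A.card * (A.card * ∑ k, ‖x k‖ ^ 2 - ‖(x ᵥ* H) j‖ ^ 2) := fun j _ => by
    have := variance A fun k => x k * H k j
    rwa [hy, hE] at this
  have hc' : (S.card : ℝ) * A.card = n := by exact_mod_cast hc
  have h0 : ∑ j ∈ S, ∑ k ∈ A, ‖(A.card : ℂ) * (x k * H k j) - (x ᵥ* H) j‖ ^ 2 = 0 := by
    rw [Finset.sum_congr rfl hv, ← Finset.mul_sum, Finset.sum_sub_distrib, hs, hpars,
      Finset.sum_const, nsmul_eq_mul, ← mul_assoc, hc', sub_self, mul_zero]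
  intro j hj k hk
  have h1 := (Finset.sum_eq_zero_iff_of_nonneg fun j _ =>
    Finset.sum_nonneg fun k _ => sq_nonneg _).1 h0 j hj
  have h2 := (Finset.sum_eq_zero_iff_of_nonneg fun k _ => sq_nonneg _).1 h1 k hk
  exact sub_eq_zero.1 (norm_eq_zero.1 (pow_eq_zero_iff two_ne_zero |>.1 h2))

lemma gram {n : ℕ} {H : Matrix (Fin n) (Fin n) ℂ} (hH : IsComplexHadamard H) :
    H.conjTranspose * H = (n : ℂ) • (1 : Matrix (Fin n) (Fin n) ℂ) := by
  rcases Nat.eq_zero_or_pos n with hn | hn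
  · subst hn
    exact Subsingleton.elim _ _
  have hnC : (n : ℂ) ≠ 0 := by exact_mod_cast hn.ne'
  have h1 : H * ((n : ℂ)⁻¹ • H.conjTranspose) = 1 := by
    rw [Matrix.mul_smul, hH.2, smul_smul, inv_mul_cancel₀ hnC, one_smul]
  have h2 := mul_eq_one_comm.mp h1
  rw [Matrix.smul_mul] at h2
  rw [← h2, smul_smul, mul_inv_cancel₀ hnC, one_smul]

lemma transpose_had {n : ℕ} {H : Matrix (Fin n) (Fin n) ℂ} (hH : IsComplexHadamard H) :
    IsComplexHadamard H.transpose := by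
  refine ⟨fun i j => hH.1 j i, ?_⟩
  have h := congrArg Matrix.transpose (gram hH)
  rw [Matrix.transpose_mul, Matrix.transpose_smul, Matrix.transpose_one] at h
  exact h

lemma core {n : ℕ} {H : Matrix (Fin n) (Fin n) ℂ} (hH : IsComplexHadamard H)
    {T : Finset (Fin n × Fin n)} (hT : IsTrade H T) : n ≤ T.card ∧ (T.card = n →
      (∀ p ∈ T, (T.filter fun q => q.1 = p.1).card * (T.image Prod.fst).card = n) ∧
      (∀ i i' j j', (i, j) ∈ T → (i', j) ∈ T → (i, j') ∈ T → (i', j') ∈ T) ∧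
      ∀ i j j', (i, j) ∈ T → (i, j') ∈ T → ∀ k ∈ T.image Prod.fst, ∀ k' ∈ T.image Prod.fst,
        H k j * H k' j' = H k j' * H k' j) := by
  obtain ⟨H', hH', hne, hin, hout⟩ := hT
  rcases Nat.eq_zero_or_pos n with hn | hn
  · subst hn
    exact absurd (Subsingleton.elim _ _) hne
  have hnC : (n : ℂ) ≠ 0 := by exact_mod_cast hn.ne'
  set A : Finset (Fin n) := T.image Prod.fst with hA
  have hrow : ∀ k, k ∉ A → ∀ j, H' k j = H k j := by
    intro k hk j
    apply hout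
    intro h
    exact hk (Finset.mem_image.mpr ⟨(k, j), h, rfl⟩)
  have hHH := gram hH
  set X : Matrix (Fin n) (Fin n) ℂ := (n : ℂ)⁻¹ • ((H' - H) * H.conjTranspose) with hX
  have hXH : X * H = H' - H := by
    rw [hX, Matrix.smul_mul, Matrix.mul_assoc, hHH, Matrix.mul_smul, Matrix.mul_one, smul_smul,
      inv_mul_cancel₀ hnC, one_smul]
  have hX0 : ∀ i k, k ∉ A → X i k = 0 := by
    intro i k hk
    have h1 : (H' * H.conjTranspose) i k = (H' * H'.conjTranspose) i k := by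
      simp only [Matrix.mul_apply, conjTranspose_apply, hrow k hk]
    rw [hX, Matrix.smul_apply, Matrix.sub_mul, Matrix.sub_apply, h1, hH.2, hH'.2, sub_self,
      smul_zero]
  have hv : ∀ i j, (X i ᵥ* H) j = H' i j - H i j := by
    intro i j
    have := congrFun (congrFun hXH i) j
    simpa [Matrix.mul_apply, vecMul, dotProduct] using this
  have hcs : ∀ i, (Finset.univ.filter fun j => (i, j) ∈ T).card =
      (T.filter fun p => p.1 = i).card := fun i => by
    refine Finset.card_bij (fun j _ => (i, j)) (fun j hj => by simpa using hj)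
      (fun a _ b _ hab => by simpa using hab) fun p hp => ?_
    obtain ⟨h1, rfl⟩ := Finset.mem_filter.1 hp
    exact ⟨p.2, by simpa using h1, rfl⟩
  have hkey : ∀ i ∈ A, n ≤ (T.filter fun p => p.1 = i).card * A.card := by
    intro i hi
    have h := uncertainty hH (X i) A (Finset.univ.filter fun j => (i, j) ∈ T) (hX0 i)
      (by
        intro j hj
        rw [hv, hout i j (by simpa using hj), sub_self])
      (by
        obtain ⟨p, hp, rfl⟩ := Finset.mem_image.mp hi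
        intro h0
        have := hv p.1 p.2
        rw [h0] at this
        exact hin p.1 p.2 hp (sub_eq_zero.mp this.symm))
    rwa [hcs] at h
  have hApos : 0 < A.card := by
    by_contra h0
    have hA0 : A = ∅ := Finset.card_eq_zero.mp (by omega)
    apply hne
    ext i j
    exact hrow i (by simp [hA0]) j
  have hcard : T.card = ∑ i ∈ A, (T.filter fun p => p.1 = i).card :=
    Finset.card_eq_sum_card_image Prod.fst T
  have h1 : n * A.card ≤ T.card * A.card := by
    calc n * A.card = ∑ _i ∈ A, n := by rw [Finset.sum_const, smul_eq_mul, mul_comm]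
      _ ≤ ∑ i ∈ A, (T.filter fun p => p.1 = i).card * A.card := Finset.sum_le_sum hkey
      _ = T.card * A.card := by rw [← Finset.sum_mul, ← hcard]
  refine ⟨Nat.le_of_mul_le_mul_right h1 hApos, fun hn' => ?_⟩
  have hmem : ∀ {i j}, (i, j) ∈ T → i ∈ A := fun h => Finset.mem_image.2 ⟨_, h, rfl⟩
  have heq : ∀ i ∈ A, n = (T.filter fun p => p.1 = i).card * A.card := by
    refine (Finset.sum_eq_sum_iff_of_le hkey).1 ?_
    rw [← Finset.sum_mul, ← hcard, hn', Finset.sum_const, smul_eq_mul, mul_comm]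
  have hy : ∀ {i j}, (i, j) ∈ T → (X i ᵥ* H) j ≠ 0 := fun h => by
    rw [hv]
    exact sub_ne_zero.2 (hin _ _ h)
  have hE : ∀ {i j}, (i, j) ∈ T → ∀ k ∈ A, (A.card : ℂ) * (X i k * H k j) = (X i ᵥ* H) j :=
    fun {i j} h => uncertainty_eq hH (X i) A (Finset.univ.filter fun j => (i, j) ∈ T) (hX0 i)
      (fun j hj => by rw [hv, hout i j (by simpa using hj), sub_self])
      (by rw [hcs]; exact (heq i (hmem h)).symm) j (by simpa using h)
  have haC : (A.card : ℂ) ≠ 0 := by exact_mod_cast hApos.ne'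
  refine ⟨fun p hp => (heq p.1 (hmem hp)).symm, fun i i' j j' h₁ h₂ h₃ => ?_,
    fun i j j' h₁ h₂ k hk k' hk' => ?_⟩
  · have hp : (X i ᵥ* H) j • X i' = (X i' ᵥ* H) j • X i := by
      funext k
      by_cases hk : k ∈ A
      · simp only [Pi.smul_apply, smul_eq_mul]
        rw [← hE h₁ k hk, ← hE h₂ k hk]
        ring
      · simp [hX0 _ k hk]
    have hq := congrFun (congrArg (fun v => v ᵥ* H) hp) j'
    simp only [Matrix.smul_vecMul, Pi.smul_apply, smul_eq_mul] at hq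
    by_contra hc
    rw [hv i' j', hout i' j' hc, sub_self, mul_zero] at hq
    exact mul_ne_zero (hy h₂) (hy h₃) hq.symm
  · have hx : ∀ l ∈ A, X i l ≠ 0 := fun l hl h0 => by
      have := hE h₁ l hl
      rw [h0, zero_mul, mul_zero] at this
      exact hy h₁ this.symm
    have e1 := mul_left_cancel₀ haC ((hE h₁ k hk).trans (hE h₁ k' hk').symm)
    have e2 := mul_left_cancel₀ haC ((hE h₂ k hk).trans (hE h₂ k' hk').symm)
    refine mul_left_cancel₀ (mul_ne_zero (hx k hk) (hx k' hk')) ?_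
    linear_combination (X i k' * H k' j') * e1 - (X i k' * H k' j) * e2

/-- A trade of size exactly `n` in a complex Hadamard matrix of order `n` is a union of equal
rectangles on disjoint sets of rows and columns, with blocks of rank one. -/
theorem result (n : ℕ) (H : Matrix (Fin n) (Fin n) ℂ) (hH : IsComplexHadamard H)
    (T : Finset (Fin n × Fin n)) (hT : IsTrade H T) (hn : T.card = n) :
    (∀ p ∈ T, (T.filter fun q => q.1 = p.1).card * (T.image Prod.fst).card = n) ∧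
      (∀ p ∈ T, (T.filter fun q => q.2 = p.2).card * (T.image Prod.snd).card = n) ∧
      (∀ i i' j j', (i, j) ∈ T → (i', j) ∈ T → (i, j') ∈ T → (i', j') ∈ T) ∧
      (∀ i j j', (i, j) ∈ T → (i, j') ∈ T → ∀ k ∈ T.image Prod.fst, ∀ k' ∈ T.image Prod.fst,
        H k j * H k' j' = H k j' * H k' j) ∧
      ∀ j i i', (i, j) ∈ T → (i', j) ∈ T → ∀ l ∈ T.image Prod.snd, ∀ l' ∈ T.image Prod.snd,
        H i l * H i' l' = H i' l * H i l' := by
  obtain ⟨a1, a2, a3⟩ := (core hH hT).2 hn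
  have hm : ∀ i j, (i, j) ∈ T.map (Equiv.prodComm _ _).toEmbedding ↔ (j, i) ∈ T := by simp
  have hT' : IsTrade H.transpose (T.map (Equiv.prodComm _ _).toEmbedding) := by
    obtain ⟨H', hH', hne, hin, hout⟩ := hT
    exact ⟨H'.transpose, transpose_had hH', fun h => hne (Matrix.transpose_injective h),
      fun i j h => hin j i ((hm i j).1 h), fun i j h => hout j i fun h' => h ((hm i j).2 h')⟩
  obtain ⟨b1, -, b3⟩ := (core (transpose_had hH) hT').2 (by rw [Finset.card_map, hn])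
  have hi : (T.map (Equiv.prodComm _ _).toEmbedding).image Prod.fst = T.image Prod.snd := by
    rw [Finset.map_eq_image, Finset.image_image]
    rfl
  rw [hi] at b1 b3
  refine ⟨a1, fun p hp => ?_, a2, a3, fun j i i' h₁ h₂ l hl l' hl' =>
    b3 j i i' ((hm j i).2 h₁) ((hm j i').2 h₂) l hl l' hl'⟩
  have := b1 (p.2, p.1) ((hm _ _).2 hp)
  rw [Finset.filter_map, Finset.card_map] at this
  exact this

end Pool.Agent.Results.MP_f34218_co.MinimumTrades
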