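import Mathlib

set_option autoImplicit false

open Matrix Finset

namespace Pool.Agent.Results.MP_f34218_co.TradeSize

/-- A complex Hadamard matrix of order `n`: entries of modulus one and `H Hᴴ = n I`. -/
def IsComplexHadamard {n : ℕ} (H : Matrix (Fin n) (Fin n) ℂ) : Prop :=
  (∀ i j, ‖H i j‖ = 1) ∧ H * H.conjTranspose = (n : ℂ) • (1 : Matrix (Fin n) (Fin n) ℂ)

/-- A set `T` of positions is a trade in `H` if some complex Hadamard matrix `H' ≠ H` differs from
`H` at every position of `T` and agrees with `H` at every position outside `T`. -/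
def IsTrade {n : ℕ} (H : Matrix (Fin n) (Fin n) ℂ) (T : Finset (Fin n × Fin n)) : Prop :=
  ∃ H' : Matrix (Fin n) (Fin n) ℂ, IsComplexHadamard H' ∧ H' ≠ H ∧
    (∀ i j, (i, j) ∈ T → H' i j ≠ H i j) ∧ (∀ i j, (i, j) ∉ T → H' i j = H i j)

/-- Uncertainty principle: a nonzero combination of the rows indexed by `A` has at least
`n / |A|` nonzero entries. -/
lemma uncertainty {n : ℕ} {H : Matrix (Fin n) (Fin n) ℂ} (hH : IsComplexHadamard H)
    (x : Fin n → ℂ) (A S : Finset (Fin n)) (hx : ∀ k, k ∉ A → x k = 0)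
    (hS : ∀ j, j ∉ S → (x ᵥ* H) j = 0) (hne : x ᵥ* H ≠ 0) : n ≤ S.card * A.card := by
  classical
  set y := x ᵥ* H with hy
  set E : ℝ := ∑ k, ‖x k‖ ^ 2 with hE
  have hpars : ∑ j, ‖y j‖ ^ 2 = n * E := by
    have h1 : y ⬝ᵥ star y = (n : ℂ) * (x ⬝ᵥ star x) := by
      rw [hy, star_vecMul, dotProduct_mulVec, vecMul_vecMul, hH.2, vecMul_smul, vecMul_one,
        smul_dotProduct, smul_eq_mul]
    have h2 : ∀ v : Fin n → ℂ, v ⬝ᵥ star v = ((∑ k, ‖v k‖ ^ 2 : ℝ) : ℂ) := by
      intro v
      simp only [dotProduct, Pi.star_apply, Complex.ofReal_sum]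
      refine Finset.sum_congr rfl fun k _ => ?_
      rw [Complex.star_def, Complex.mul_conj, Complex.normSq_eq_norm_sq]
    rw [h2, h2] at h1
    exact_mod_cast h1
  have hpt : ∀ j, ‖y j‖ ^ 2 ≤ A.card * E := by
    intro j
    have h1 : ‖y j‖ ≤ ∑ k ∈ A, ‖x k‖ := by
      have : y j = ∑ k ∈ A, x k * H k j := by
        rw [hy]
        simp only [vecMul, dotProduct]
        symm
        refine Finset.sum_subset (Finset.subset_univ _) fun k _ hk => ?_
        rw [hx k hk, zero_mul]
      rw [this]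
      refine (norm_sum_le _ _).trans (le_of_eq ?_)
      refine Finset.sum_congr rfl fun k _ => ?_
      rw [norm_mul, hH.1, mul_one]
    have h2 : (∑ k ∈ A, ‖x k‖) ^ 2 ≤ A.card * ∑ k ∈ A, ‖x k‖ ^ 2 := sq_sum_le_card_mul_sum_sq
    have h3 : ∑ k ∈ A, ‖x k‖ ^ 2 ≤ E :=
      Finset.sum_le_sum_of_subset_of_nonneg (Finset.subset_univ _) fun _ _ _ => by positivity
    calc ‖y j‖ ^ 2 ≤ (∑ k ∈ A, ‖x k‖) ^ 2 := by gcongr
      _ ≤ A.card * ∑ k ∈ A, ‖x k‖ ^ 2 := h2
      _ ≤ A.card * E := by gcongr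
  have hsum : ∑ j, ‖y j‖ ^ 2 ≤ S.card * (A.card * E) := by
    have : ∑ j, ‖y j‖ ^ 2 = ∑ j ∈ S, ‖y j‖ ^ 2 := by
      symm
      refine Finset.sum_subset (Finset.subset_univ _) fun j _ hj => ?_
      rw [hS j hj]; simp
    rw [this]
    calc ∑ j ∈ S, ‖y j‖ ^ 2 ≤ ∑ _j ∈ S, A.card * E := Finset.sum_le_sum fun j _ => hpt j
      _ = S.card * (A.card * E) := by rw [Finset.sum_const, nsmul_eq_mul]
  have hEpos : 0 < E := by
    obtain ⟨j, hj⟩ := Function.ne_iff.mp hne
    have h1 : 0 < ‖y j‖ ^ 2 := pow_pos (norm_pos_iff.mpr hj) 2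
    have h2 := lt_of_lt_of_le h1 (hpt j)
    have h3 : 0 ≤ E := Finset.sum_nonneg fun _ _ => by positivity
    rcases h3.lt_or_eq with h | h
    · exact h
    · rw [← h] at h2; simp at h2
  rw [hpars, ← mul_assoc] at hsum
  have := le_of_mul_le_mul_right hsum hEpos
  exact_mod_cast this

/-- Every trade in a complex Hadamard matrix of order `n` has size at least `n`. -/
theorem result (n : ℕ) (H : Matrix (Fin n) (Fin n) ℂ) (hH : IsComplexHadamard H)
    (T : Finset (Fin n × Fin n)) (hT : IsTrade H T) : n ≤ T.card := by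
  classical
  obtain ⟨H', hH', hne, hin, hout⟩ := hT
  rcases Nat.eq_zero_or_pos n with hn | hn
  · omega
  have hnC : (n : ℂ) ≠ 0 := by exact_mod_cast hn.ne'
  set A : Finset (Fin n) := T.image Prod.fst with hA
  have hrow : ∀ k, k ∉ A → ∀ j, H' k j = H k j := by
    intro k hk j
    apply hout
    intro h
    exact hk (Finset.mem_image.mpr ⟨(k, j), h, rfl⟩)
  have hHH : H.conjTranspose * H = (n : ℂ) • (1 : Matrix (Fin n) (Fin n) ℂ) := by
    have h1 : H * ((n : ℂ)⁻¹ • H.conjTranspose) = 1 := by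
      rw [Matrix.mul_smul, hH.2, smul_smul, inv_mul_cancel₀ hnC, one_smul]
    have h2 := mul_eq_one_comm.mp h1
    rw [Matrix.smul_mul] at h2
    rw [← h2, smul_smul, mul_inv_cancel₀ hnC, one_smul]
  set X : Matrix (Fin n) (Fin n) ℂ := (n : ℂ)⁻¹ • ((H' - H) * H.conjTranspose) with hX
  have hXH : X * H = H' - H := by
    rw [hX, Matrix.smul_mul, Matrix.mul_assoc, hHH, Matrix.mul_smul, Matrix.mul_one, smul_smul,
      inv_mul_cancel₀ hnC, one_smul]
  have hX0 : ∀ i k, k ∉ A → X i k = 0 := by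
    intro i k hk
    have h1 : (H' * H.conjTranspose) i k = (H' * H'.conjTranspose) i k := by
      simp only [Matrix.mul_apply, conjTranspose_apply, hrow k hk]
    rw [hX, Matrix.smul_apply, Matrix.sub_mul, Matrix.sub_apply, h1, hH.2, hH'.2, sub_self,
      smul_zero]
  have hkey : ∀ i ∈ A, n ≤ (T.filter fun p => p.1 = i).card * A.card := by
    intro i hi
    have hv : ∀ j, (X i ᵥ* H) j = H' i j - H i j := by
      intro j
      have := congrFun (congrFun hXH i) j
      simpa [Matrix.mul_apply, vecMul, dotProduct] using this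
    have h := uncertainty hH (X i) A (Finset.univ.filter fun j => (i, j) ∈ T) (hX0 i)
      (by
        intro j hj
        rw [hv, hout i j (by simpa using hj), sub_self])
      (by
        obtain ⟨p, hp, rfl⟩ := Finset.mem_image.mp hi
        intro h0
        have := hv p.2
        rw [h0] at this
        exact hin p.1 p.2 hp (sub_eq_zero.mp this.symm))
    refine h.trans (Nat.mul_le_mul_right _ ?_)
    refine Finset.card_le_card_of_injOn (fun j => (i, j)) ?_ ?_
    · intro j hj
      simpa using hj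
    · intro a _ b _ hab
      simpa using hab
  have hApos : 0 < A.card := by
    by_contra h0
    have hA0 : A = ∅ := Finset.card_eq_zero.mp (by omega)
    apply hne
    ext i j
    exact hrow i (by simp [hA0]) j
  have hcard : T.card = ∑ i ∈ A, (T.filter fun p => p.1 = i).card :=
    Finset.card_eq_sum_card_image Prod.fst T
  have h1 : n * A.card ≤ T.card * A.card := by
    calc n * A.card = ∑ _i ∈ A, n := by rw [Finset.sum_const, smul_eq_mul, mul_comm]
      _ ≤ ∑ i ∈ A, (T.filter fun p => p.1 = i).card * A.card := Finset.sum_le_sum hkey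
      _ = T.card * A.card := by rw [← Finset.sum_mul, ← hcard]
  exact Nat.le_of_mul_le_mul_right h1 hApos

end Pool.Agent.Results.MP_f34218_co.TradeSize
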